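import Pool.Agent.TH829.Prime.Num

/-!
# Homological equivalence and the minimal prime adequate equivalence relations
-/

open CategoryTheory AlgebraicGeometry

universe u v w

namespace Pool.Agent.Q69.Prime

open Pool.Agent.H914 Pool.Agent.H914.VarClass Pool.Agent.H914.VarClass.Obj Pool.Agent.W492.BB
  Pool.Agent.W550.Corr Pool.Agent.TH133 Pool.Agent.TH829.Prime

variable {k : Type u} [Field k] {𝒱 : VarClass k} {C : TheoryData.{u, v, 0} 𝒱 ℚ}

/-- Homological equivalence for the Weil cohomology theory `H`: the classes `a ∈ A^i(X)` with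
vanishing cohomology class. -/
def homFam {K : Type w} [Field K] (H : WeilTheoryData.{u, v, w} C K) : Family C := fun X i =>
  { carrier := {a | C.Deg i a ∧ H.cl a = 0}
    zero_mem' := ⟨Submodule.zero_mem _, map_zero _⟩
    add_mem' := fun {a b} ha hb => ⟨Submodule.add_mem _ ha.1 hb.1, by rw [map_add, ha.2, hb.2, add_zero]⟩
    smul_mem' := by
      rintro q a ⟨h1, h2⟩
      refine ⟨Submodule.smul_mem _ q h1, ?_⟩
      rw [Algebra.smul_def, map_mul, h2, mul_zero] }

lemma mem_homFam {K : Type w} [Field K] {H : WeilTheoryData.{u, v, w} C K} {X : 𝒱.Obj} {i : ℤ}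
    {a : C.A X} : a ∈ homFam H X i ↔ C.Deg i a ∧ H.cl a = 0 := Iff.rfl

/-- The prime adequate equivalence relation `P` is minimal: no prime adequate equivalence relation is
strictly finer. -/
def IsMinimalPrime (C : TheoryData.{u, v, 0} 𝒱 ℚ) (P : Family C) : Prop :=
  IsPrime C P ∧ ∀ Q : Family C, IsPrime C Q → Q ≤ P → Q = P

section minimal

/-- The intersection of a non-empty chain of prime adequate equivalence relations is prime. -/
lemma isPrime_sInf {c : Set (Family C)} (hc : IsChain (· ≤ ·) c) (hne : c.Nonempty)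
    (hp : ∀ P ∈ c, IsPrime C P) : IsPrime C (fun X i => ⨅ P ∈ c, P X i) := by
  have hmem : ∀ {X : 𝒱.Obj} {i : ℤ} {a : C.A X}, a ∈ (⨅ P ∈ c, P X i) ↔ ∀ P ∈ c, a ∈ P X i := by
    intro X i a
    simp only [Submodule.mem_iInf]
  obtain ⟨P₀, hP₀⟩ := hne
  refine ⟨⟨?_, ?_, ?_, ?_⟩, ?_, ?_⟩
  · intro X i a ha
    exact (hp P₀ hP₀).le_gr X i (hmem.1 ha P₀ hP₀)
  · intro X Y f i b hb
    exact hmem.2 fun P hP => (hp P hP).pull_mem f (hmem.1 hb P hP)
  · intro X Y f i a ha
    exact hmem.2 fun P hP => (hp P hP).push_mem f (hmem.1 ha P hP)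
  · intro X i j a b ha hb
    exact hmem.2 fun P hP => (hp P hP).mul_mem (hmem.1 ha P hP) hb
  · intro X hX
    exact (hp P₀ hP₀).one_notMem X (hmem.1 hX P₀ hP₀)
  · intro X Y i j x y hx hy hxy
    by_contra hcon
    push Not at hcon
    obtain ⟨h1, h2⟩ := hcon
    rw [hmem] at h1 h2
    push Not at h1 h2
    obtain ⟨P, hP, hPx⟩ := h1
    obtain ⟨Q, hQ, hQy⟩ := h2
    rcases hc.total hP hQ with h | h
    · rcases (hp P hP).prime hx hy (hmem.1 hxy P hP) with h3 | h3
      · exact hPx h3
      · exact hQy (h Y j h3)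
    · rcases (hp Q hQ).prime hx hy (hmem.1 hxy Q hQ) with h3 | h3
      · exact hPx (h X i h3)
      · exact hQy h3

/-- Every prime adequate equivalence relation contains a minimal one. -/
lemma exists_minimalPrime {P : Family C} (hP : IsPrime C P) : ∃ Q, IsMinimalPrime C Q ∧ Q ≤ P := by
  have h := zorn_le_nonempty₀ (α := (Family C)ᵒᵈ) {Q | IsPrime C (OrderDual.ofDual Q)} (by
    intro c hc hchain y hy
    refine ⟨OrderDual.toDual (fun X i => ⨅ P ∈ (OrderDual.toDual ⁻¹' c : Set (Family C)), P X i), ?_, ?_⟩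
    · refine isPrime_sInf (c := (OrderDual.toDual ⁻¹' c : Set (Family C))) ?_ ⟨OrderDual.ofDual y, hy⟩ ?_
      · intro a ha b hb hab
        exact (hchain ha hb hab).symm
      · intro Q hQ
        exact hc hQ
    · intro z hz X i
      exact iInf₂_le (OrderDual.ofDual z) hz) (OrderDual.toDual P) hP
  obtain ⟨Q, hQ, hmax⟩ := h
  refine ⟨OrderDual.ofDual Q, ⟨hmax.1, fun R hR hRQ => ?_⟩, hQ⟩
  exact le_antisymm hRQ (hmax.2 (y := OrderDual.toDual R) hR hRQ)

end minimal

section hom

variable [hC : IsChowProj C] {K : Type w} [Field K] {H : WeilTheoryData.{u, v, w} C K}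
  [hH : IsWeilProj H] {X Y : 𝒱.Obj}

include hC hH

/-- The exterior product of cycles with non-zero cohomology classes has non-zero cohomology class. -/
lemma cl_ext_ne {i j : ℤ} {x : C.A X} {y : C.A Y} (hx : C.Deg i x) (_hy : C.Deg j y)
    (h : H.cl (C.ext x y) = 0) : H.cl x = 0 ∨ H.cl y = 0 := by
  by_contra hcon
  push Not at hcon
  obtain ⟨hx0, hy0⟩ := hcon
  -- a homogeneous class `c` with `tr (x c) ≠ 0`
  obtain ⟨c, hc, hc0⟩ : ∃ c : H.A X, H.Deg (2 * X.dim - 2 * i) c ∧ H.tr X (H.cl x * c) ≠ 0 := by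
    by_contra hno
    push Not at hno
    apply hx0
    apply hH.isOriented.nondeg
    intro b
    have h1 : (H.tr X ∘ₗ LinearMap.mulLeft K (H.cl x)) = 0 := by
      apply ext_gr H
      intro m b hb
      rw [LinearMap.comp_apply, LinearMap.mulLeft_apply, LinearMap.zero_apply]
      by_cases hm : m = 2 * X.dim - 2 * i
      · subst hm
        exact hno b hb
      · refine hH.tr_eq_zero X (2 * i + m) _ (H.mul_mem (hH.isClassMap.cl_mem hx) hb) ?_
        omega
    exact LinearMap.congr_fun h1 b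
  -- the class `w` of degree `2 dim X`
  have hw : H.cl x * c ∈ H.gr X (2 * X.dim) := by
    have h1 := H.mul_mem (hH.isClassMap.cl_mem hx) hc
    rwa [show 2 * i + (2 * (X.dim : ℤ) - 2 * i) = 2 * X.dim by ring] at h1
  have h1 : H.pull (fst X Y) (H.cl x * c) * H.pull (snd X Y) (H.cl y) = 0 := by
    have h2 : H.pull (fst X Y) (H.cl x) * H.pull (snd X Y) (H.cl y) = 0 := by
      rw [← h, TheoryData.ext, map_mul]
      exact congrArg₂ (· * ·) (hH.isClassMap.cl_pull _ _).symm (hH.isClassMap.cl_pull _ _).symm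
    have h3 : H.pull (snd X Y) (H.cl y) * H.pull (fst X Y) c =
        H.pull (fst X Y) c * H.pull (snd X Y) (H.cl y) := by
      have h4 := hH.isClassMap.cl_central (C.up (snd X Y) y) (H.pull (fst X Y) c)
      rw [hH.isClassMap.cl_pull] at h4
      exact h4
    rw [map_mul, mul_assoc, ← h3, ← mul_assoc, h2, zero_mul]
  obtain ⟨μ, hμ⟩ := hH.gr_zero Y (H.push (snd X Y) (H.pull (fst X Y) (H.cl x * c))) (by
    have h2 := H.push_mem (snd X Y) (H.pull_mem (fst X Y) hw)
    rwa [show 2 * (X.dim : ℤ) + 2 * ((Y.dim : ℤ) - ((X.prod Y).dim : ℤ)) = 0 by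
      rw [dim_prod]; push_cast; ring] at h2)
  have h2 : μ • H.cl y = 0 := by
    have h3 := congrArg (H.push (snd X Y)) h1
    rw [H.proj_right, hμ, map_zero, smul_mul_assoc, one_mul] at h3
    exact h3
  have hμ0 : μ = 0 := (smul_eq_zero.1 h2).resolve_right hy0
  obtain ⟨a, -, ha1, -⟩ := exists_deg_one C Y
  have h3 : H.push (fst X Y) (H.pull (snd X Y) (H.cl a)) = 1 := by
    have h4 := congrArg H.cl (ha1 X)
    rw [map_one] at h4
    rw [← h4]
    exact ((hH.isClassMap.cl_push _ _).trans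
      (congrArg (H.push (fst X Y)) (hH.isClassMap.cl_pull _ _))).symm
  have h4 : H.tr (X.prod Y) (H.pull (fst X Y) (H.cl x * c) * H.pull (snd X Y) (H.cl a)) =
      H.tr X (H.cl x * c) := by
    rw [← H.tr_push (fst X Y), H.proj_left, h3, mul_one]
  have h5 : H.tr (X.prod Y) (H.pull (fst X Y) (H.cl x * c) * H.pull (snd X Y) (H.cl a)) = 0 := by
    rw [← H.tr_push (snd X Y), H.proj_right, hμ, hμ0, zero_smul, zero_mul, map_zero]
  exact hc0 (h4.symm.trans h5)

/-- Homological equivalence is a prime adequate equivalence relation. -/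
lemma isPrime_homFam : IsPrime C (homFam H) where
  le_gr X i a ha := ha.1
  pull_mem {X Y} f {i b} hb := ⟨C.pull_mem f hb.1, by
    rw [hH.isClassMap.cl_pull, hb.2]; exact map_zero _⟩
  push_mem {X Y} f {i a} ha := ⟨by
    have h := C.push_mem f ha.1
    rwa [one_mul] at h, by
    rw [hH.isClassMap.cl_push, ha.2]; exact map_zero _⟩
  mul_mem ha hb := ⟨C.mul_mem ha.1 hb, by rw [TheoryData.mul, map_mul, ha.2, zero_mul]⟩
  one_notMem X h := hH.one_ne_zero X (by rw [← map_one H.cl]; exact h.2)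
  prime {X Y i j x y} hx hy h := by
    rcases cl_ext_ne (H := H) hx hy h.2 with h1 | h1
    · exact Or.inl ⟨hx, h1⟩
    · exact Or.inr ⟨hy, h1⟩

variable (H) in
/-- Homologically trivial classes are smash-nilpotent if and only if homological equivalence is the
only minimal prime adequate equivalence relation. -/
theorem hom_smash_iff :
    (∀ (X : 𝒱.Obj) (i : ℤ) (a : C.A X), C.Deg i a → H.cl a = 0 → SmashNilpotent C a) ↔
      ∀ P : Family C, IsMinimalPrime C P ↔ P = homFam H := by
  have hp : IsPrime C (homFam H) := isPrime_homFam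
  constructor
  · intro h
    have hle : ∀ P : Family C, IsPrime C P → homFam H ≤ P := by
      intro P hP X i a ha
      exact (smashNilpotent_iff ha.1).1 (h X i a ha.1 ha.2) P hP
    intro P
    constructor
    · intro hP
      exact (hP.2 _ hp (hle P hP.1)).symm
    · rintro rfl
      exact ⟨hp, fun Q hQ hQH => le_antisymm hQH (hle Q hQ)⟩
  · intro h X i a ha ha'
    apply (smashNilpotent_iff ha).2
    intro P hP
    obtain ⟨Q, hQ, hQP⟩ := exists_minimalPrime hP
    rw [(h Q).1 hQ] at hQP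
    exact hQP X i ⟨ha, ha'⟩

end hom

end Pool.Agent.Q69.Prime
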